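import Pool.Agent.helper62.VN.SpecG

/-!
# MP_07c750, project VN, block 5, row GDV: directional derivatives
-/

set_option autoImplicit false

open scoped MatrixGroups ContDiff Topology UpperHalfPlane
open UpperHalfPlane MeasureTheory Filter Set

namespace Pool.Agent.VNE

open Pool.Agent.RS Pool.Agent.VQE
open Pool.Agent.VQ (Dyn rho kap n1 n2 hess Ug TF)
open Pool.Agent.VN (PotN OKN Kg)

noncomputable section

/-- a curve with the derivative `[[x/2, b], [c, -x/2]]` at `0` -/
def GDV_D (x b c s : ℝ) : SL(2, ℝ) :=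
  ⟨!![(1 + s * b * (s * c)) * Real.exp (s * x / 2), s * b * Real.exp (-(s * x / 2)); s * c * Real.exp (s * x / 2), Real.exp (-(s * x / 2))], by
    rw [Matrix.det_fin_two_of]
    have h : Real.exp (s * x / 2) * Real.exp (-(s * x / 2)) = 1 := by
      rw [← Real.exp_add]
      simp
    linear_combination h⟩

theorem GDV_zero (x b c : ℝ) : GDV_D x b c 0 = 1 := by
  apply Subtype.ext
  ext i j
  fin_cases i <;> fin_cases j <;> simp [GDV_D]

theorem GDV_d (x b c : ℝ) (i j : Fin 2) : HasDerivAt (fun s => (GDV_D x b c s).1 i j) ((!![x / 2, b; c, -(x / 2)] : Matrix (Fin 2) (Fin 2) ℝ) i j) 0 := by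
  have he : HasDerivAt (fun s : ℝ => Real.exp (s * x / 2)) (x / 2) 0 := by
    have h1 : HasDerivAt (fun s : ℝ => s * x / 2) (x / 2) 0 := by
      have := ((hasDerivAt_id (0 : ℝ)).mul_const x).div_const 2
      simpa using this
    have h2 := h1.exp
    simpa using h2
  have he' : HasDerivAt (fun s : ℝ => Real.exp (-(s * x / 2))) (-(x / 2)) 0 := by
    have h1 : HasDerivAt (fun s : ℝ => -(s * x / 2)) (-(x / 2)) 0 := by
      have h0 : HasDerivAt (fun s : ℝ => s * x / 2) (x / 2) 0 := by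
        have := ((hasDerivAt_id (0 : ℝ)).mul_const x).div_const 2
        simpa using this
      exact h0.neg
    have h2 := h1.exp
    simpa using h2
  have hb : ∀ b : ℝ, HasDerivAt (fun s : ℝ => s * b) b 0 := by
    intro b
    have := (hasDerivAt_id (0 : ℝ)).mul_const b
    simpa using this
  fin_cases i <;> fin_cases j
  · have h1 := (((hb b).mul (hb c)).const_add 1).mul he
    simp at h1
    exact h1
  · have h1 := (hb b).mul he'
    simp at h1
    exact h1
  · have h1 := (hb c).mul he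
    simp at h1
    exact h1
  · exact he'

theorem GDV_mt (x b c : ℝ) : HasDerivAt (fun s => mt (GDV_D x b c s)) (!![x / 2, b; c, -(x / 2)] : Matrix (Fin 2) (Fin 2) ℝ) 0 := by
  rw [hasDerivAt_pi]
  intro i
  rw [hasDerivAt_pi]
  intro j
  exact GDV_d x b c i j

theorem GDV_ev (x b c : ℝ) : ∀ᶠ s in 𝓝 (0 : ℝ), nm (GDV_D x b c s) ≤ 1 / 10 := by
  have h : ∀ i j : Fin 2, ContinuousAt (fun s => (GDV_D x b c s).1 i j) 0 := fun i j => (GDV_d x b c i j).continuousAt
  have h1 : ContinuousAt (fun s => nm (GDV_D x b c s)) 0 := by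
    unfold nm
    exact ((((h 0 0).sub continuousAt_const).abs).max (h 0 1).abs).max ((h 1 0).abs.max ((h 1 1).sub continuousAt_const).abs)
  have h2 : nm (GDV_D x b c 0) < 1 / 10 := by
    rw [GDV_zero]
    unfold nm
    simp
  exact (h1.eventually (gt_mem_nhds h2)).mono fun s hs => le_of_lt hs

theorem GDV_proof (h1 : VQ.VDG_stmt) : GDV_stmt := by
  intro U g R N1 N2 hU hpos hR hN1 hN2 hE x b c
  have hone : mt (GDV_D x b c 0) = one2 := by
    rw [GDV_zero]
    funext i j
    unfold VQE.mt one2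
    rw [Matrix.SpecialLinearGroup.coe_one, Matrix.one_apply]
  have hg0 : g * GDV_D x b c 0 = g := by rw [GDV_zero, mul_one]
  have hγ : ∀ i j, HasDerivAt (fun s => (g * GDV_D x b c s).1 i j) (((g * GDV_D x b c 0).1 * !![x / 2, b; c, -(x / 2)]) i j) 0 := by
    intro i j
    rw [hg0]
    have e1 : (fun s => (g * GDV_D x b c s).1 i j) = fun s => g.1 i 0 * (GDV_D x b c s).1 0 j + g.1 i 1 * (GDV_D x b c s).1 1 j := by
      funext s
      rw [Matrix.SpecialLinearGroup.coe_mul, Matrix.mul_apply, Fin.sum_univ_two]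
    have e2 : (g.1 * !![x / 2, b; c, -(x / 2)]) i j = g.1 i 0 * (!![x / 2, b; c, -(x / 2)] : Matrix (Fin 2) (Fin 2) ℝ) 0 j + g.1 i 1 * (!![x / 2, b; c, -(x / 2)] : Matrix (Fin 2) (Fin 2) ℝ) 1 j := by
      rw [Matrix.mul_apply, Fin.sum_univ_two]
    rw [e1, e2]
    exact ((GDV_d x b c 0 j).const_mul _).add ((GDV_d x b c 1 j).const_mul _)
  have hV := h1 U hU (fun s => g * GDV_D x b c s) 0 x b c 0 (by
    show 0 < U ((g * GDV_D x b c 0) • I) + 2 * 0
    rw [hg0]
    linarith) hγ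
  simp only [hg0] at hV
  obtain ⟨-, v1, v2, v3, -⟩ := hV
  have key : ∀ G : (Fin 2 → Fin 2 → ℝ) → ℝ, DifferentiableAt ℝ G one2 → ∀ f : SL(2, ℝ) → ℝ, (∀ D : SL(2, ℝ), nm D ≤ 1 / 10 → f (g * D) = G (mt D)) → ∀ v : ℝ,
      HasDerivAt (fun s => f (g * GDV_D x b c s)) v 0 → fderiv ℝ G one2 !![x / 2, b; c, -(x / 2)] = v := by
    intro G hG f hf v hv
    have h2 : HasFDerivAt G (fderiv ℝ G one2) (mt (GDV_D x b c 0)) := by
      rw [hone]
      exact hG.hasFDerivAt
    have h3 := h2.comp_hasDerivAt (0 : ℝ) (GDV_mt x b c)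
    have h4 : HasDerivAt (fun s => f (g * GDV_D x b c s)) (fderiv ℝ G one2 !![x / 2, b; c, -(x / 2)]) 0 := by
      refine h3.congr_of_eventuallyEq ?_
      filter_upwards [GDV_ev x b c] with s hs
      exact hf _ hs
    exact h4.unique hv
  exact ⟨key R hR (rho U 0) (fun D hD => (hE D hD).1) _ v3, key N1 hN1 (n1 U) (fun D hD => (hE D hD).2.1) _ v1,
    key N2 hN2 (n2 U) (fun D hD => (hE D hD).2.2) _ v2⟩

end

end Pool.Agent.VNE
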